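import Mathlib

open Polynomial

namespace Pool.Helper329.SQ

variable {p : ℕ} [hpf : Fact p.Prime]

/-- derivative zero means `p`-th power -/
theorem exists_pow_of_derivative_eq_zero (f : (ZMod p)[X]) (hf : derivative f = 0) :
    ∃ h : (ZMod p)[X], f = h ^ p := by
  refine ⟨contract p f, ?_⟩
  rw [← ZMod.expand_card, expand_contract p hf hpf.out.ne_zero]

theorem isSquare_of_pow {k : Type*} [Field k] (hp2 : p ≠ 2) (h : k[X])
    (hs : IsSquare (h ^ p)) : IsSquare h := by
  classical
  by_cases h0 : h = 0
  · subst h0; exact ⟨0, by simp⟩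
  obtain ⟨z, hz⟩ := hs
  have hodd : Odd p := hpf.out.odd_of_ne_two hp2
  obtain ⟨m, hm⟩ := hodd
  have h1 : (h ^ m) ^ 2 ∣ z ^ 2 := ⟨h, by rw [pow_two z, ← hz, hm]; ring⟩
  have h2 : h ^ m ∣ z := (IsIntegrallyClosed.pow_dvd_pow_iff (by norm_num)).1 h1
  obtain ⟨w, hw⟩ := h2
  refine ⟨w, ?_⟩
  have h3 : (h ^ m) ^ 2 * h = (h ^ m) ^ 2 * (w * w) := by
    have : h ^ p = (h ^ m) ^ 2 * h := by rw [hm]; ring
    rw [← this, hz, hw]; ring
  exact mul_left_cancel₀ (pow_ne_zero _ (pow_ne_zero _ h0)) h3

theorem derivative_zero_of_no_common {k : Type*} [Field k] {ι : Type*} (w : ι → k[X]) (i0 : ι)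
    (h0 : w i0 ≠ 0)
    (hno : ¬ ∃ π : k[X], Irreducible π ∧ ∀ i, π ∣ w i)
    (hW : ∀ i, w i0 * derivative (w i) = w i * derivative (w i0)) :
    ∀ i, derivative (w i) = 0 := by
  classical
  have key : derivative (w i0) = 0 := by
    obtain ⟨a, b, ha, hb, hab⟩ := extract_gcd (w i0) (derivative (w i0))
    have hg0 : gcd (w i0) (derivative (w i0)) ≠ 0 := by
      intro h
      rw [h, zero_mul] at ha
      exact h0 ha
    have hco : IsCoprime a b := (gcd_isUnit_iff a b).1 hab
    have hdiv : ∀ i, a ∣ w i := by
      intro i
      have h1 : a * derivative (w i) = w i * b := by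
        apply mul_left_cancel₀ hg0
        calc gcd (w i0) (derivative (w i0)) * (a * derivative (w i))
            = w i0 * derivative (w i) := by rw [← mul_assoc, ← ha]
          _ = w i * derivative (w i0) := hW i
          _ = w i * (gcd (w i0) (derivative (w i0)) * b) := by rw [← hb]
          _ = _ := by ring
      have h2 : a ∣ w i * b := ⟨_, h1.symm⟩
      exact hco.dvd_of_dvd_mul_right h2
    have hunit : IsUnit a := by
      by_contra hnu
      have ha0 : a ≠ 0 := by
        rintro rfl
        rw [mul_zero] at ha; exact h0 ha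
      obtain ⟨π, hπ, hπa⟩ := WfDvdMonoid.exists_irreducible_factor hnu ha0
      exact hno ⟨π, hπ, fun i => hπa.trans (hdiv i)⟩
    have hdvd : w i0 ∣ derivative (w i0) := by
      have h1 : w i0 ∣ gcd (w i0) (derivative (w i0)) := by
        have h2 : w i0 ∣ gcd (w i0) (derivative (w i0)) * a := ⟨1, by rw [mul_one]; exact ha.symm⟩
        exact (IsUnit.dvd_mul_right hunit).1 h2
      exact h1.trans (gcd_dvd_right _ _)
    by_contra hne
    have hdeg := Polynomial.natDegree_le_of_dvd hdvd hne
    have hpos : (w i0).natDegree ≠ 0 := by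
      intro h
      rw [natDegree_eq_zero] at h
      obtain ⟨c, hc⟩ := h
      apply hne
      rw [← hc]; simp
    have hlt := Polynomial.natDegree_derivative_lt hpos
    omega
  intro i
  have := hW i
  rw [key, mul_zero] at this
  exact (mul_eq_zero.1 this).resolve_left h0

/-- Frobenius descent. -/
theorem descent (hp2 : p ≠ 2) {κ : Type*} [Fintype κ] [DecidableEq κ] (S : Set (κ → ZMod p))
    (h0 : (0 : κ → ZMod p) ∈ S) (h1 : ∀ i, Pi.single i (1 : ZMod p) ∈ S)
    (Good : (κ → (ZMod p)[X]) → Prop)
    (hG1 : ∀ (γ : (ZMod p)[X]) (d : κ → (ZMod p)[X]), γ ≠ 0 → Good (fun i => γ * d i) → Good d)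
    (hG2 : ∀ h : κ → (ZMod p)[X], Good (fun i => h i ^ p) → Good h)
    (hW : ∀ (f : (ZMod p)[X]) (d : κ → (ZMod p)[X]), Good d →
      (∀ c ∈ S, IsSquare (f + ∑ i, c i • d i)) →
      (∀ i, f * derivative (d i) = d i * derivative f) ∧
      (∀ i j, d i * derivative (d j) = d j * derivative (d i)))
    (hC : ∀ (f : (ZMod p)[X]) (d : κ → (ZMod p)[X]), Good d →
      (∀ c ∈ S, IsSquare (f + ∑ i, c i • d i)) → f.natDegree = 0 → (∀ i, (d i).natDegree = 0) → False) :
    ∀ (m : ℕ) (f : (ZMod p)[X]) (d : κ → (ZMod p)[X]), f.natDegree + ∑ i, (d i).natDegree = m →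
      Good d → (∀ c ∈ S, IsSquare (f + ∑ i, c i • d i)) → False := by
  classical
  intro m
  induction m using Nat.strong_induction_on with
  | _ m ih =>
    intro f d hm hgood hsq
    by_cases hm0 : m = 0
    · apply hC f d hgood hsq
      · omega
      · intro i
        have : (d i).natDegree ≤ ∑ i, (d i).natDegree :=
          Finset.single_le_sum (f := fun i => (d i).natDegree) (fun _ _ => Nat.zero_le _) (Finset.mem_univ i)
        omega
    -- the family
    let w : Option κ → (ZMod p)[X] := fun o => o.elim f d
    by_cases hcom : ∃ π : (ZMod p)[X], Irreducible π ∧ ∀ o, π ∣ w o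
    · obtain ⟨π, hπ, hdiv⟩ := hcom
      have hπf : π ∣ f := hdiv none
      have hπd : ∀ i, π ∣ d i := fun i => hdiv (some i)
      have hπ2 : ∀ c ∈ S, π ^ 2 ∣ f + ∑ i, c i • d i := by
        intro c hc
        obtain ⟨z, hz⟩ := hsq c hc
        have h2 : π ∣ z * z := by
          rw [← hz]
          refine dvd_add hπf (Finset.dvd_sum fun i _ => ?_)
          rw [smul_eq_C_mul]
          exact Dvd.dvd.mul_left (hπd i) _
        have h3 : π ∣ z := by
          rcases hπ.prime.dvd_or_dvd h2 with h | h <;> exact h
        rw [hz, ← pow_two]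
        exact pow_dvd_pow_of_dvd h3 2
      have hX0 : π ^ 2 ∣ f := by
        have := hπ2 0 h0
        simpa using this
      have hXd : ∀ i, π ^ 2 ∣ d i := by
        intro i
        have h5 := hπ2 _ (h1 i)
        have h6 : ∑ j, (Pi.single i (1 : ZMod p) : κ → ZMod p) j • d j = d i := by
          rw [Finset.sum_eq_single i]
          · simp
          · intro j _ hj; simp [Pi.single_eq_of_ne hj]
          · simp
        rw [h6] at h5
        exact (dvd_add_right hX0).1 h5
      obtain ⟨f', hf'⟩ := hX0
      choose d' hd' using hXd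
      have hπ0 : π ≠ 0 := hπ.ne_zero
      have hπ20 : π ^ 2 ≠ 0 := pow_ne_zero _ hπ0
      have hπdeg : 0 < (π ^ 2).natDegree := by
        rw [natDegree_pow]
        have := hπ.natDegree_pos
        omega
      have hgood' : Good d' := hG1 (π ^ 2) d' hπ20 (by
        have : (fun i => π ^ 2 * d' i) = d := by
          funext i; exact (hd' i).symm
        rw [this]; exact hgood)
      have hsq' : ∀ c ∈ S, IsSquare (f' + ∑ i, c i • d' i) := by
        intro c hc
        obtain ⟨z, hz⟩ := hsq c hc
        have h7 : f + ∑ i, c i • d i = π ^ 2 * (f' + ∑ i, c i • d' i) := by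
          rw [mul_add, ← hf', Finset.mul_sum]
          congr 1
          apply Finset.sum_congr rfl
          intro i _
          rw [mul_smul_comm, ← hd']
        have h8 : π ∣ z * z := by
          rw [← hz, h7]; exact Dvd.dvd.mul_right (dvd_pow_self π (by norm_num)) _
        have h3 : π ∣ z := by
          rcases hπ.prime.dvd_or_dvd h8 with h | h <;> exact h
        obtain ⟨y, hy⟩ := h3
        refine ⟨y, ?_⟩
        apply mul_left_cancel₀ hπ20
        rw [← h7, hz, hy]; ring
      have hle : ∀ g : (ZMod p)[X], g.natDegree ≤ (π ^ 2 * g).natDegree := by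
        intro g
        by_cases hg : g = 0
        · subst hg; simp
        · rw [natDegree_mul hπ20 hg]; omega
      have hlt : ∀ g : (ZMod p)[X], 0 < (π ^ 2 * g).natDegree → g.natDegree < (π ^ 2 * g).natDegree := by
        intro g hg
        by_cases hg0 : g = 0
        · subst hg0; simp at hg
        · rw [natDegree_mul hπ20 hg0]; omega
      have hfle : f'.natDegree ≤ f.natDegree := by rw [hf']; exact hle f'
      have hdle : ∀ i, (d' i).natDegree ≤ (d i).natDegree := by
        intro i; rw [hd' i]; exact hle _
      have hsum_le : ∑ i, (d' i).natDegree ≤ ∑ i, (d i).natDegree :=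
        Finset.sum_le_sum fun i _ => hdle i
      have hlt' : f'.natDegree + ∑ i, (d' i).natDegree < m := by
        by_cases hfpos : 0 < f.natDegree
        · have : f'.natDegree < f.natDegree := by
            rw [hf'] at hfpos ⊢; exact hlt f' hfpos
          omega
        · have hspos : 0 < ∑ i, (d i).natDegree := by omega
          obtain ⟨i, hi⟩ : ∃ i, 0 < (d i).natDegree := by
            by_contra hcon
            push Not at hcon
            have : ∑ i, (d i).natDegree = 0 := Finset.sum_eq_zero fun i _ => by
              have := hcon i; omega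
            omega
          have : ∑ i, (d' i).natDegree < ∑ i, (d i).natDegree := by
            apply Finset.sum_lt_sum (fun i _ => hdle i)
            refine ⟨i, Finset.mem_univ i, ?_⟩
            rw [hd' i] at hi ⊢; exact hlt _ hi
          omega
      exact ih _ hlt' f' d' rfl hgood' hsq'
    · obtain ⟨i0, hi0⟩ : ∃ o, w o ≠ 0 := by
        by_contra hcon
        push Not at hcon
        apply hm0
        have hf0 : f = 0 := hcon none
        have hd0 : ∀ i, d i = 0 := fun i => hcon (some i)
        rw [← hm, hf0]
        simp [hd0]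
      obtain ⟨hW1, hW2⟩ := hW f d hgood hsq
      have hWall : ∀ o, w i0 * derivative (w o) = w o * derivative (w i0) := by
        intro o
        cases i0 with
        | none =>
          cases o with
          | none => rfl
          | some i => exact hW1 i
        | some j =>
          cases o with
          | none =>
            show d j * derivative f = f * derivative (d j)
            exact (hW1 j).symm
          | some i => exact hW2 j i
      have hder := derivative_zero_of_no_common w i0 hi0 hcom hWall
      obtain ⟨hf, hhf⟩ := exists_pow_of_derivative_eq_zero f (hder none)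
      have hdd : ∀ i, ∃ h : (ZMod p)[X], d i = h ^ p := fun i =>
        exists_pow_of_derivative_eq_zero (d i) (hder (some i))
      choose hd hhd using hdd
      have hgood' : Good hd := hG2 hd (by
        have : (fun i => hd i ^ p) = d := by
          funext i; exact (hhd i).symm
        rw [this]; exact hgood)
      have hsq' : ∀ c ∈ S, IsSquare (hf + ∑ i, c i • hd i) := by
        intro c hc
        apply isSquare_of_pow hp2
        have : (hf + ∑ i, c i • hd i) ^ p = f + ∑ i, c i • d i := by
          rw [add_pow_char, sum_pow_char, ← hhf]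
          congr 1
          apply Finset.sum_congr rfl
          intro i _
          rw [_root_.smul_pow, ZMod.pow_card, ← hhd]
        rw [this]; exact hsq c hc
      have hm' : m = p * (hf.natDegree + ∑ i, (hd i).natDegree) := by
        rw [← hm, hhf, natDegree_pow, mul_add, Finset.mul_sum]
        congr 1
        apply Finset.sum_congr rfl
        intro i _
        rw [hhd i, natDegree_pow]
      have hlt' : hf.natDegree + ∑ i, (hd i).natDegree < m := by
        have h2 : 2 ≤ p := hpf.out.two_le
        have h3 : 0 < hf.natDegree + ∑ i, (hd i).natDegree := by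
          rcases Nat.eq_zero_or_pos (hf.natDegree + ∑ i, (hd i).natDegree) with h | h
          · rw [h, mul_zero] at hm'; exact absurd hm' hm0
          · exact h
        rw [hm']
        nlinarith
      exact ih _ hlt' hf hd rfl hgood' hsq'

end Pool.Helper329.SQ
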