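import Mathlib

namespace Pool.Helper329.SQ

/-- The magic polynomial. -/
def PP {R : Type*} [CommRing R] (f d e f' d' e' : R) : R :=
  3 * f * (e * f' - f * e') ^ 2 * (f * d' - d * f') ^ 2
  + d * (d * e' - e * d') * (e * f' - f * e') *
      ((e * f' - f * e') ^ 2 + 3 * (f * d' - d * f') ^ 2 - (d * e' - e * d') ^ 2)
  + e * (d * e' - e * d') * (f * d' - d * f') *
      ((f * d' - d * f') ^ 2 + 3 * (e * f' - f * e') ^ 2 - (d * e' - e * d') ^ 2)

variable {R : Type*} [CommRing R]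

/-- the quartic form in `(x,a)` -/
def G (f c b x a : R) : R :=
  3 * f ^ 4 * a ^ 2 * b ^ 2
  + f ^ 2 * (x * b - c * a) * (c * a ^ 3 + 3 * c * a * b ^ 2 - x * b ^ 3 - 3 * x * a ^ 2 * b)
  + (x * b - c * a) ^ 4

theorem PP_eq_G (f f' x x' c c' : R) :
    f ^ 3 * PP f x c f' x' c' = G f c (f * c' - c * f') x (f * x' - x * f') := by
  unfold PP G; ring

/-- polar form (up to a factor) -/
def M (f c b x1 a1 x2 a2 x3 a3 x4 a4 : R) : R :=
  2 * b ^ 4 * (x1 * x2 * x3 * x4)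
  - 2 * b ^ 3 * c * (x1 * x2 * x3 * a4 + x1 * x2 * a3 * x4 + x1 * a2 * x3 * x4 + a1 * x2 * x3 * x4)
  + (2 * b ^ 2 * c ^ 2 - f ^ 2 * b ^ 2) *
    (x1 * x2 * a3 * a4 + x1 * a2 * x3 * a4 + x1 * a2 * a3 * x4 + a1 * x2 * x3 * a4
      + a1 * x2 * a3 * x4 + a1 * a2 * x3 * x4)
  + (2 * f ^ 2 * b * c - 2 * b * c ^ 3) *
    (x1 * a2 * a3 * a4 + a1 * x2 * a3 * a4 + a1 * a2 * x3 * a4 + a1 * a2 * a3 * x4)
  + 2 * (c ^ 4 - f ^ 2 * c ^ 2) * (a1 * a2 * a3 * a4)

theorem G_diff (f c b x1 a1 x2 a2 x3 a3 x4 a4 : R) :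
    G f c b (x1 + x2 + x3 + x4) (a1 + a2 + a3 + a4)
    - G f c b (x1 + x2 + x3 - x4) (a1 + a2 + a3 - a4)
    - G f c b (x1 + x2 - x3 + x4) (a1 + a2 - a3 + a4)
    + G f c b (x1 + x2 - x3 - x4) (a1 + a2 - a3 - a4)
    - G f c b (x1 - x2 + x3 + x4) (a1 - a2 + a3 + a4)
    + G f c b (x1 - x2 + x3 - x4) (a1 - a2 + a3 - a4)
    + G f c b (x1 - x2 - x3 + x4) (a1 - a2 - a3 + a4)
    - G f c b (x1 - x2 - x3 - x4) (a1 - a2 - a3 - a4)
    = 96 * M f c b x1 a1 x2 a2 x3 a3 x4 a4 := by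
  unfold G M; ring


theorem M_lin1 (f c b x1 a1 x1' a1' x2 a2 x3 a3 x4 a4 : R)
    (h : M f c b x1 a1 x2 a2 x3 a3 x4 a4 = 0) (h' : M f c b x1' a1' x2 a2 x3 a3 x4 a4 = 0) :
    (x1 * a1' - x1' * a1) * M f c b 1 0 x2 a2 x3 a3 x4 a4 = 0 := by
  have : (x1 * a1' - x1' * a1) * M f c b 1 0 x2 a2 x3 a3 x4 a4
      = a1' * M f c b x1 a1 x2 a2 x3 a3 x4 a4 - a1 * M f c b x1' a1' x2 a2 x3 a3 x4 a4 := by
    unfold M; ring
  rw [this, h, h']; ring

theorem M_lin2 (f c b x1 a1 x2 a2 x2' a2' x3 a3 x4 a4 : R)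
    (h : M f c b x1 a1 x2 a2 x3 a3 x4 a4 = 0) (h' : M f c b x1 a1 x2' a2' x3 a3 x4 a4 = 0) :
    (x2 * a2' - x2' * a2) * M f c b x1 a1 1 0 x3 a3 x4 a4 = 0 := by
  have : (x2 * a2' - x2' * a2) * M f c b x1 a1 1 0 x3 a3 x4 a4
      = a2' * M f c b x1 a1 x2 a2 x3 a3 x4 a4 - a2 * M f c b x1 a1 x2' a2' x3 a3 x4 a4 := by
    unfold M; ring
  rw [this, h, h']; ring

theorem M_lin3 (f c b x1 a1 x2 a2 x3 a3 x3' a3' x4 a4 : R)
    (h : M f c b x1 a1 x2 a2 x3 a3 x4 a4 = 0) (h' : M f c b x1 a1 x2 a2 x3' a3' x4 a4 = 0) :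
    (x3 * a3' - x3' * a3) * M f c b x1 a1 x2 a2 1 0 x4 a4 = 0 := by
  have : (x3 * a3' - x3' * a3) * M f c b x1 a1 x2 a2 1 0 x4 a4
      = a3' * M f c b x1 a1 x2 a2 x3 a3 x4 a4 - a3 * M f c b x1 a1 x2 a2 x3' a3' x4 a4 := by
    unfold M; ring
  rw [this, h, h']; ring

theorem M_lin4 (f c b x1 a1 x2 a2 x3 a3 x4 a4 x4' a4' : R)
    (h : M f c b x1 a1 x2 a2 x3 a3 x4 a4 = 0) (h' : M f c b x1 a1 x2 a2 x3 a3 x4' a4' = 0) :
    (x4 * a4' - x4' * a4) * M f c b x1 a1 x2 a2 x3 a3 1 0 = 0 := by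
  have : (x4 * a4' - x4' * a4) * M f c b x1 a1 x2 a2 x3 a3 1 0
      = a4' * M f c b x1 a1 x2 a2 x3 a3 x4 a4 - a4 * M f c b x1 a1 x2 a2 x3 a3 x4' a4' := by
    unfold M; ring
  rw [this, h, h']; ring

/-- if `M` vanishes on all choices from four bases then `b = 0` -/
theorem b_zero [IsDomain R] (h2 : (2 : R) ≠ 0) (f c b : R)
    (x a : Fin 4 → Bool → R)
    (hdet : ∀ l, x l false * a l true - x l true * a l false ≠ 0)
    (hM : ∀ i j k l : Bool, M f c b (x 0 i) (a 0 i) (x 1 j) (a 1 j) (x 2 k) (a 2 k) (x 3 l) (a 3 l) = 0) :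
    b = 0 := by
  have s1 : ∀ j k l : Bool, M f c b 1 0 (x 1 j) (a 1 j) (x 2 k) (a 2 k) (x 3 l) (a 3 l) = 0 := by
    intro j k l
    have := M_lin1 f c b _ _ _ _ _ _ _ _ _ _ (hM false j k l) (hM true j k l)
    exact (mul_eq_zero.1 this).resolve_left (hdet 0)
  have s2 : ∀ k l : Bool, M f c b 1 0 1 0 (x 2 k) (a 2 k) (x 3 l) (a 3 l) = 0 := by
    intro k l
    have := M_lin2 f c b _ _ _ _ _ _ _ _ _ _ (s1 false k l) (s1 true k l)
    exact (mul_eq_zero.1 this).resolve_left (hdet 1)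
  have s3 : ∀ l : Bool, M f c b 1 0 1 0 1 0 (x 3 l) (a 3 l) = 0 := by
    intro l
    have := M_lin3 f c b _ _ _ _ _ _ _ _ _ _ (s2 false l) (s2 true l)
    exact (mul_eq_zero.1 this).resolve_left (hdet 2)
  have s4 : M f c b 1 0 1 0 1 0 1 0 = 0 := by
    have := M_lin4 f c b _ _ _ _ _ _ _ _ _ _ (s3 false) (s3 true)
    exact (mul_eq_zero.1 this).resolve_left (hdet 3)
  have h5 : (2 : R) * b ^ 4 = 0 := by
    have : M f c b 1 0 1 0 1 0 1 0 = 2 * b ^ 4 := by unfold M; ring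
    rw [this] at s4; exact s4
  have h6 := (mul_eq_zero.1 h5).resolve_left h2
  exact pow_eq_zero_iff (by norm_num) |>.1 h6

/-- parallel case -/
theorem par_case [IsDomain R] (h3 : (3 : R) ≠ 0) (f f' x x' c c' : R) (hf : f ≠ 0) (hx : x ≠ 0)
    (hc : c ≠ 0) (hP : PP f x c f' x' c' = 0) (hw : x * c' - c * x' = 0) :
    f * x' - x * f' = 0 ∧ f * c' - c * f' = 0 := by
  have h1 : 3 * f * (c * f' - f * c') ^ 2 * (f * x' - x * f') ^ 2 = 0 := by
    have : PP f x c f' x' c' = 3 * f * (c * f' - f * c') ^ 2 * (f * x' - x * f') ^ 2 := by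
      unfold PP; rw [hw]; ring
    rw [← this]; exact hP
  have hrel : x * (f * c' - c * f') - c * (f * x' - x * f') = 0 := by
    have : x * (f * c' - c * f') - c * (f * x' - x * f') = f * (x * c' - c * x') := by ring
    rw [this, hw]; ring
  have h2' : (c * f' - f * c') ^ 2 = 0 ∨ (f * x' - x * f') ^ 2 = 0 := by
    rcases mul_eq_zero.1 h1 with h | h
    · rcases mul_eq_zero.1 h with h | h
      · exfalso
        rcases mul_eq_zero.1 h with h | h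
        · exact h3 h
        · exact hf h
      · exact Or.inl h
    · exact Or.inr h
  rcases h2' with h | h
  · have h := pow_eq_zero_iff (n := 2) (by norm_num) |>.1 h
    have hb : f * c' - c * f' = 0 := by linear_combination -h
    refine ⟨?_, hb⟩
    rw [hb] at hrel
    have : c * (f * x' - x * f') = 0 := by linear_combination -hrel
    exact (mul_eq_zero.1 this).resolve_left hc
  · have h := pow_eq_zero_iff (n := 2) (by norm_num) |>.1 h
    refine ⟨h, ?_⟩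
    rw [h] at hrel
    have : x * (f * c' - c * f') = 0 := by linear_combination hrel
    exact (mul_eq_zero.1 this).resolve_left hx

/-- one bracket zero, the other one not -/
theorem mixed_case [IsDomain R] (f f' x x' c c' : R) (hf : f ≠ 0) (hx : x ≠ 0)
    (hP : PP f x c f' x' c' = 0) (ha : f * x' - x * f' = 0) (hb : f * c' - c * f' ≠ 0) :
    x = f ∨ x = -f := by
  have h := PP_eq_G f f' x x' c c'
  rw [hP, ha] at h
  set b := f * c' - c * f' with hbdef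
  have h1 : x ^ 2 * b ^ 4 * (x ^ 2 - f ^ 2) = 0 := by
    have : G f c b x 0 = x ^ 2 * b ^ 4 * (x ^ 2 - f ^ 2) := by unfold G; ring
    rw [← this, ← h]; ring
  have h2 : x ^ 2 - f ^ 2 = 0 := by
    rcases mul_eq_zero.1 h1 with h | h
    · exfalso
      rcases mul_eq_zero.1 h with h | h
      · exact hx (pow_eq_zero_iff (by norm_num) |>.1 h)
      · exact hb (pow_eq_zero_iff (by norm_num) |>.1 h)
    · exact h
  have h3 : (x - f) * (x + f) = 0 := by linear_combination h2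
  rcases mul_eq_zero.1 h3 with h | h
  · left; linear_combination h
  · right; linear_combination h

end Pool.Helper329.SQ
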