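import Mathlib
import Pool.Agent.Helper329.SQ.Quartic

open Polynomial

namespace Pool.Helper329.SQ

/-- The statement of the key lemma: `PP` kills every 3x3 grid of squares. -/
def LemmaP (k : Type*) [Field k] : Prop :=
  ∀ f d e : k[X], (∀ s t : ℤ, |s| ≤ 1 → |t| ≤ 1 →
    IsSquare (f + (s : k[X]) * d + (t : k[X]) * e)) →
    PP f d e (derivative f) (derivative d) (derivative e) = 0

section
variable {k : Type*} [Field k]

theorem grid_sub {n m : ℕ} (f : k[X]) (d : Fin n → k[X])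
    (h : ∀ s : Fin n → ℤ, (∀ i, |s i| ≤ 1) → IsSquare (f + ∑ i, (s i : k[X]) * d i))
    (ι : Fin m → Fin n) (hι : Function.Injective ι) (c : Fin m → ℤ) (hc : ∀ l, |c l| ≤ 1) :
    IsSquare (f + ∑ l, (c l : k[X]) * d (ι l)) := by
  have key := h (Function.extend ι c 0) (by
    intro i
    by_cases hi : ∃ l, ι l = i
    · obtain ⟨l, rfl⟩ := hi
      rw [hι.extend_apply]; exact hc l
    · rw [Function.extend_apply' _ _ _ hi]; simp)
  have e : ∑ l, (c l : k[X]) * d (ι l) = ∑ i, ((Function.extend ι c 0 i : ℤ) : k[X]) * d i := by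
    apply Fintype.sum_of_injective ι hι
    · intro i hi
      have hi' : ¬ ∃ l, ι l = i := by
        rintro ⟨l, hl⟩; exact hi ⟨l, hl⟩
      rw [Function.extend_apply' _ _ _ hi']; simp
    · intro l
      rw [hι.extend_apply]
  rw [e]; exact key

theorem pp_two (LP : LemmaP k) {n : ℕ} (f : k[X]) (d : Fin n → k[X])
    (h : ∀ s : Fin n → ℤ, (∀ i, |s i| ≤ 1) → IsSquare (f + ∑ i, (s i : k[X]) * d i))
    (i j : Fin n) (hij : i ≠ j) :
    PP f (d i) (d j) (derivative f) (derivative (d i)) (derivative (d j)) = 0 := by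
  apply LP
  intro s t hs ht
  have := grid_sub f d h ![i, j] (by
    intro a b hab
    fin_cases a <;> fin_cases b <;> simp_all) ![s, t] (by
    intro l; fin_cases l <;> simp [hs, ht])
  simp only [Fin.sum_univ_two, Matrix.cons_val_zero, Matrix.cons_val_one] at this
  rw [← add_assoc] at this
  exact this

theorem pp_four (LP : LemmaP k) {n : ℕ} (f : k[X]) (d : Fin n → k[X])
    (h : ∀ s : Fin n → ℤ, (∀ i, |s i| ≤ 1) → IsSquare (f + ∑ i, (s i : k[X]) * d i))
    (ι : Fin 5 → Fin n) (hι : Function.Injective ι) (ε1 ε2 ε3 : ℤ)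
    (h1 : |ε1| ≤ 1) (h2 : |ε2| ≤ 1) (h3 : |ε3| ≤ 1) :
    PP f (d (ι 0) + (ε1 : k[X]) * d (ι 1) + (ε2 : k[X]) * d (ι 2) + (ε3 : k[X]) * d (ι 3)) (d (ι 4))
      (derivative f)
      (derivative (d (ι 0) + (ε1 : k[X]) * d (ι 1) + (ε2 : k[X]) * d (ι 2) + (ε3 : k[X]) * d (ι 3)))
      (derivative (d (ι 4))) = 0 := by
  apply LP
  intro s t hs ht
  have hm : ∀ a b : ℤ, |a| ≤ 1 → |b| ≤ 1 → |a * b| ≤ 1 := by
    intro a b ha hb
    rw [abs_mul]
    exact mul_le_one₀ ha (abs_nonneg _) hb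
  have := grid_sub f d h ι hι ![s, s * ε1, s * ε2, s * ε3, t] (by
    intro l; fin_cases l
    · simpa using hs
    · simpa using hm _ _ hs h1
    · simpa using hm _ _ hs h2
    · simpa using hm _ _ hs h3
    · simpa using ht)
  rw [Fin.sum_univ_five] at this
  simp only [Matrix.cons_val] at this
  convert this using 1
  push_cast
  ring

theorem M_zero (h2 : (2 : k) ≠ 0) (h3 : (3 : k) ≠ 0) (LP : LemmaP k) {n : ℕ} (f : k[X])
    (d : Fin n → k[X])
    (h : ∀ s : Fin n → ℤ, (∀ i, |s i| ≤ 1) → IsSquare (f + ∑ i, (s i : k[X]) * d i))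
    (ι : Fin 5 → Fin n) (hι : Function.Injective ι) :
    M f (d (ι 4)) (f * derivative (d (ι 4)) - d (ι 4) * derivative f)
      (d (ι 0)) (f * derivative (d (ι 0)) - d (ι 0) * derivative f)
      (d (ι 1)) (f * derivative (d (ι 1)) - d (ι 1) * derivative f)
      (d (ι 2)) (f * derivative (d (ι 2)) - d (ι 2) * derivative f)
      (d (ι 3)) (f * derivative (d (ι 3)) - d (ι 3) * derivative f) = 0 := by
  have key : ∀ ε1 ε2 ε3 : ℤ, |ε1| ≤ 1 → |ε2| ≤ 1 → |ε3| ≤ 1 →
      G f (d (ι 4)) (f * derivative (d (ι 4)) - d (ι 4) * derivative f)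
        (d (ι 0) + (ε1 : k[X]) * d (ι 1) + (ε2 : k[X]) * d (ι 2) + (ε3 : k[X]) * d (ι 3))
        ((f * derivative (d (ι 0)) - d (ι 0) * derivative f)
          + (ε1 : k[X]) * (f * derivative (d (ι 1)) - d (ι 1) * derivative f)
          + (ε2 : k[X]) * (f * derivative (d (ι 2)) - d (ι 2) * derivative f)
          + (ε3 : k[X]) * (f * derivative (d (ι 3)) - d (ι 3) * derivative f)) = 0 := by
    intro ε1 ε2 ε3 h1 h2 h3
    have hp := pp_four LP f d h ι hι ε1 ε2 ε3 h1 h2 h3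
    have hg := PP_eq_G f (derivative f)
      (d (ι 0) + (ε1 : k[X]) * d (ι 1) + (ε2 : k[X]) * d (ι 2) + (ε3 : k[X]) * d (ι 3))
      (derivative (d (ι 0) + (ε1 : k[X]) * d (ι 1) + (ε2 : k[X]) * d (ι 2) + (ε3 : k[X]) * d (ι 3)))
      (d (ι 4)) (derivative (d (ι 4)))
    rw [hp, mul_zero] at hg
    rw [hg]
    congr 1
    simp only [derivative_add, derivative_mul, derivative_intCast]
    ring
  have hd := G_diff f (d (ι 4)) (f * derivative (d (ι 4)) - d (ι 4) * derivative f)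
    (d (ι 0)) (f * derivative (d (ι 0)) - d (ι 0) * derivative f)
    (d (ι 1)) (f * derivative (d (ι 1)) - d (ι 1) * derivative f)
    (d (ι 2)) (f * derivative (d (ι 2)) - d (ι 2) * derivative f)
    (d (ι 3)) (f * derivative (d (ι 3)) - d (ι 3) * derivative f)
  have k1 := key 1 1 1 (by norm_num) (by norm_num) (by norm_num)
  have k2 := key 1 1 (-1) (by norm_num) (by norm_num) (by norm_num)
  have k3 := key 1 (-1) 1 (by norm_num) (by norm_num) (by norm_num)
  have k4 := key 1 (-1) (-1) (by norm_num) (by norm_num) (by norm_num)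
  have k5 := key (-1) 1 1 (by norm_num) (by norm_num) (by norm_num)
  have k6 := key (-1) 1 (-1) (by norm_num) (by norm_num) (by norm_num)
  have k7 := key (-1) (-1) 1 (by norm_num) (by norm_num) (by norm_num)
  have k8 := key (-1) (-1) (-1) (by norm_num) (by norm_num) (by norm_num)
  simp only [Int.cast_one, Int.cast_neg, one_mul, neg_mul, ← sub_eq_add_neg] at k1 k2 k3 k4 k5 k6 k7 k8
  rw [k1, k2, k3, k4, k5, k6, k7, k8] at hd
  simp only [sub_zero, add_zero] at hd
  have h96 : (96 : k[X]) ≠ 0 := by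
    have e : (96 : k[X]) = C ((2 : k) ^ 5 * 3) := by
      rw [show ((2 : k) ^ 5 * 3) = 96 by norm_num]; rfl
    rw [e]
    exact C_ne_zero.2 (mul_ne_zero (pow_ne_zero _ h2) h3)
  exact (mul_eq_zero.1 hd.symm).resolve_left h96

end

end Pool.Helper329.SQ
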