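import Mathlib
import Pool.Agent.Helper329.SQ.Grid

open Polynomial

namespace Pool.Helper329.SQ

/-- index `2l` or `2l+1` -/
def idx (l : Fin 4) (b : Bool) : Fin 9 := if b then ⟨2 * l + 1, by omega⟩ else ⟨2 * l, by omega⟩

theorem idx_inj (i j k l : Bool) :
    Function.Injective (![idx 0 i, idx 1 j, idx 2 k, idx 3 l, 8] : Fin 5 → Fin 9) := by
  revert i j k l; decide

theorem idx_ne (l : Fin 4) : idx l false ≠ idx l true := by
  revert l; decide

variable {k : Type*} [Field k]

theorem all_parallel (h2 : (2 : k) ≠ 0) (h3 : (3 : k) ≠ 0) (LP : LemmaP k)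
    {n : ℕ} (hn : 10 ≤ n) (f : k[X]) (hf : f ≠ 0) (d : Fin n → k[X])
    (hli : LinearIndependent k d)
    (h : ∀ s : Fin n → ℤ, (∀ i, |s i| ≤ 1) → IsSquare (f + ∑ i, (s i : k[X]) * d i)) :
    ∀ i, f * derivative (d i) - d i * derivative f = 0 := by
  classical
  by_contra hcon
  push Not at hcon
  obtain ⟨j, hj⟩ := hcon
  have h2' : (2 : k[X]) ≠ 0 := by
    have e : (2 : k[X]) = C (2 : k) := rfl
    rw [e]; exact C_ne_zero.2 h2
  have h3' : (3 : k[X]) ≠ 0 := by
    have e : (3 : k[X]) = C (3 : k) := rfl
    rw [e]; exact C_ne_zero.2 h3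
  have hne : ∀ i, d i ≠ 0 := fun i => hli.ne_zero i
  have step1 : ∀ i, f * derivative (d i) - d i * derivative f = 0 → d i = f ∨ d i = -f := by
    intro i hi
    have hij : i ≠ j := by rintro rfl; exact hj hi
    exact mixed_case f (derivative f) (d i) (derivative (d i)) (d j) (derivative (d j)) hf (hne i)
      (pp_two LP f d h i j hij) hi hj
  have step2 : ∀ i i', f * derivative (d i) - d i * derivative f = 0 →
      f * derivative (d i') - d i' * derivative f = 0 → i = i' := by
    intro i i' hi hi'
    by_contra hne'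
    have hpm : ∃ c : k, c ≠ 0 ∧ d i = c • d i' := by
      rcases step1 i hi with h1 | h1 <;> rcases step1 i' hi' with h4 | h4
      · exact ⟨1, one_ne_zero, by rw [h1, h4, one_smul]⟩
      · exact ⟨-1, neg_ne_zero.2 one_ne_zero, by rw [h1, h4]; simp⟩
      · exact ⟨-1, neg_ne_zero.2 one_ne_zero, by rw [h1, h4]; simp⟩
      · exact ⟨1, one_ne_zero, by rw [h1, h4, one_smul]⟩
    obtain ⟨c, hc, hcd⟩ := hpm
    have hli' := linearIndependent_iff'.1 hli {i, i'} (fun m => if m = i then 1 else -c) (by
      rw [Finset.sum_pair hne']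
      simp [Ne.symm hne', hcd])
    have := hli' i (by simp)
    simp at this
  -- the good indices
  set B : Finset (Fin n) := Finset.univ.filter
    (fun i => f * derivative (d i) - d i * derivative f ≠ 0) with hB
  have hBcard : 9 ≤ B.card := by
    have hc : Bᶜ.card ≤ 1 := by
      apply Finset.card_le_one.2
      intro a ha b hb
      simp only [hB, Finset.mem_compl, Finset.mem_filter, Finset.mem_univ, true_and, not_not] at ha hb
      exact step2 a b ha hb
    have hsum := Finset.card_add_card_compl B
    rw [Fintype.card_fin] at hsum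
    omega
  obtain ⟨emb⟩ : Nonempty (Fin 9 ↪ B) := by
    apply Function.Embedding.nonempty_of_card_le
    simpa using hBcard
  let ι : Fin 9 → Fin n := fun l => (emb l : Fin n)
  have hι : Function.Injective ι := fun a b hab => emb.injective (Subtype.ext hab)
  have ha : ∀ l, f * derivative (d (ι l)) - d (ι l) * derivative f ≠ 0 := by
    intro l
    exact (Finset.mem_filter.1 (emb l).2).2
  have hw : ∀ l l', l ≠ l' → d (ι l) * derivative (d (ι l')) - d (ι l') * derivative (d (ι l)) ≠ 0 := by
    intro l l' hll' h0
    have := par_case h3' f (derivative f) (d (ι l)) (derivative (d (ι l))) (d (ι l'))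
      (derivative (d (ι l'))) hf (hne _) (hne _) (pp_two LP f d h _ _ (fun e => hll' (hι e))) h0
    exact ha l this.1
  apply ha 8
  apply b_zero h2' f (d (ι 8)) (f * derivative (d (ι 8)) - d (ι 8) * derivative f)
    (fun l b => d (ι (idx l b)))
    (fun l b => f * derivative (d (ι (idx l b))) - d (ι (idx l b)) * derivative f)
  · intro l h0
    have e : d (ι (idx l false)) * (f * derivative (d (ι (idx l true))) - d (ι (idx l true)) * derivative f)
        - d (ι (idx l true)) * (f * derivative (d (ι (idx l false))) - d (ι (idx l false)) * derivative f)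
        = f * (d (ι (idx l false)) * derivative (d (ι (idx l true)))
          - d (ι (idx l true)) * derivative (d (ι (idx l false)))) := by ring
    have h1 : f * (d (ι (idx l false)) * derivative (d (ι (idx l true)))
          - d (ι (idx l true)) * derivative (d (ι (idx l false)))) = 0 := by
      rw [← e]; exact h0
    rcases mul_eq_zero.1 h1 with h0 | h0
    · exact hf h0
    · exact hw _ _ (idx_ne l) h0
  · intro i j k l
    have := M_zero h2 h3 LP f d h (ι ∘ (![idx 0 i, idx 1 j, idx 2 k, idx 3 l, 8] : Fin 5 → Fin 9))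
      (hι.comp (idx_inj i j k l))
    simpa using this

end Pool.Helper329.SQ
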