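import Mathlib
import Pool.Agent.Helper329.SQ.Parallel
import Pool.Agent.Helper329.SQ.Descent

open Polynomial

namespace Pool.Helper329.SQ

variable {p : ℕ} [hpf : Fact p.Prime]

theorem two_ne (hp : 5 ≤ p) : (2 : ZMod p) ≠ 0 := by
  intro h
  have h1 : ((2 : ℕ) : ZMod p) = 0 := by exact_mod_cast h
  rw [ZMod.natCast_eq_zero_iff] at h1
  have := Nat.le_of_dvd (by norm_num) h1
  omega

theorem three_ne (hp : 5 ≤ p) : (3 : ZMod p) ≠ 0 := by
  intro h
  have h1 : ((3 : ℕ) : ZMod p) = 0 := by exact_mod_cast h
  rw [ZMod.natCast_eq_zero_iff] at h1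
  have := Nat.le_of_dvd (by norm_num) h1
  omega

/-- the set of coefficient vectors of the grid -/
def TS (n : ℕ) (p : ℕ) : Set (Fin n → ZMod p) := {s | ∀ i, s i = 0 ∨ s i = 1 ∨ s i = -1}

theorem int_cast_mem {s : ℤ} (hs : |s| ≤ 1) : (s : ZMod p) = 0 ∨ (s : ZMod p) = 1 ∨ (s : ZMod p) = -1 := by
  have := abs_le.1 hs
  obtain ⟨h1, h2⟩ := this
  interval_cases s <;> simp

theorem sq_int {n : ℕ} (f : (ZMod p)[X]) (d : Fin n → (ZMod p)[X])
    (h : ∀ c ∈ TS n p, IsSquare (f + ∑ i, c i • d i)) :
    ∀ s : Fin n → ℤ, (∀ i, |s i| ≤ 1) → IsSquare (f + ∑ i, (s i : (ZMod p)[X]) * d i) := by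
  intro s hs
  have := h (fun i => (s i : ZMod p)) (fun i => int_cast_mem (hs i))
  have e : ∑ i, ((s i : ZMod p)) • d i = ∑ i, (s i : (ZMod p)[X]) * d i := by
    apply Finset.sum_congr rfl
    intro i _
    rw [smul_eq_C_mul]
    simp
  rw [← e]; exact this

theorem pairwise_of_par {k : Type*} [Field k] {f a b : k[X]} (hf : f ≠ 0)
    (h1 : f * derivative a - a * derivative f = 0) (h2 : f * derivative b - b * derivative f = 0) :
    a * derivative b = b * derivative a := by
  apply mul_left_cancel₀ hf
  linear_combination a * h2 - b * h1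

theorem grid_parallel (LP : LemmaP (ZMod p)) (hp : 5 ≤ p) (f : (ZMod p)[X])
    (d : Fin 11 → (ZMod p)[X]) (hli : LinearIndependent (ZMod p) d)
    (h : ∀ c ∈ TS 11 p, IsSquare (f + ∑ i, c i • d i)) :
    (∀ i, f * derivative (d i) = d i * derivative f) ∧
      (∀ i j, d i * derivative (d j) = d j * derivative (d i)) := by
  have h2 := two_ne hp
  have h3 := three_ne hp
  have hs := sq_int f d h
  by_cases hf : f = 0
  · -- use the base point `d 0`
    subst hf
    have hne : d 0 ≠ 0 := hli.ne_zero 0
    have hpar := all_parallel h2 h3 LP (n := 10) (by norm_num) (d 0) hne (fun i => d i.succ)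
      (hli.comp _ (Fin.succ_injective _)) (by
        intro s hs'
        have := hs (Fin.cons 1 s) (by
          intro i
          refine Fin.cases ?_ ?_ i
          · simp
          · intro j; simpa using hs' j)
        rw [Fin.sum_univ_succ] at this
        simpa using this)
    have hpar' : ∀ i, d 0 * derivative (d i) - d i * derivative (d 0) = 0 := by
      intro i
      refine Fin.cases ?_ ?_ i
      · ring
      · exact hpar
    refine ⟨by intro i; simp, ?_⟩
    intro i j
    exact pairwise_of_par hne (hpar' i) (hpar' j)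
  · have hpar := all_parallel h2 h3 LP (n := 11) (by norm_num) f hf d hli hs
    refine ⟨fun i => sub_eq_zero.1 (hpar i), ?_⟩
    intro i j
    exact pairwise_of_par hf (hpar i) (hpar j)

/-- **No `T^11` grid of squares**. -/
theorem grid5 (LP : LemmaP (ZMod p)) (hp : 5 ≤ p) (f : (ZMod p)[X]) (d : Fin 11 → (ZMod p)[X])
    (h : ∀ s : Fin 11 → ZMod p, (∀ i, s i = 0 ∨ s i = 1 ∨ s i = -1) →
      IsSquare (f + ∑ i, s i • d i)) : ¬ LinearIndependent (ZMod p) d := by
  intro hli
  refine descent (p := p) (by omega) (TS 11 p) (by intro i; simp) (by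
      intro i j
      by_cases hij : j = i
      · subst hij; simp
      · simp [Pi.single_eq_of_ne hij])
    (fun d => LinearIndependent (ZMod p) d) ?_ ?_ ?_ ?_ _ f d rfl hli h
  · intro γ d hγ hli
    rw [Fintype.linearIndependent_iff] at hli ⊢
    intro g hg
    apply hli g
    have : ∑ i, g i • (γ * d i) = γ * ∑ i, g i • d i := by
      rw [Finset.mul_sum]
      apply Finset.sum_congr rfl
      intro i _
      rw [mul_smul_comm]
    rw [this, hg, mul_zero]
  · intro h hli
    rw [Fintype.linearIndependent_iff] at hli ⊢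
    intro g hg
    apply hli g
    have : ∑ i, g i • (h i ^ p) = (∑ i, g i • h i) ^ p := by
      rw [sum_pow_char]
      apply Finset.sum_congr rfl
      intro i _
      rw [_root_.smul_pow, ZMod.pow_card]
    rw [this, hg, zero_pow hpf.out.ne_zero]
  · intro f d hli hsq
    exact grid_parallel LP hp f d hli hsq
  · intro f d hli _ _ hd0
    obtain ⟨a, ha⟩ := natDegree_eq_zero.1 (hd0 0)
    obtain ⟨b, hb⟩ := natDegree_eq_zero.1 (hd0 1)
    have h01 : Function.Injective (![0, 1] : Fin 2 → Fin 11) := by
      intro x y hxy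
      fin_cases x <;> fin_cases y <;> simp_all
    have h2 := hli.comp _ h01
    have e : d ∘ (![0, 1] : Fin 2 → Fin 11) = ![d 0, d 1] := by
      funext x; fin_cases x <;> rfl
    rw [e] at h2
    have h3 := LinearIndependent.pair_iff.1 h2 b (-a) (by
      rw [← ha, ← hb, smul_eq_C_mul, smul_eq_C_mul, C_neg]; ring)
    apply hli.ne_zero 0
    have ha0 : a = 0 := neg_eq_zero.1 h3.2
    rw [← ha, ha0, C_0]

theorem isSquare_of_C {k : Type*} [Field k] (n : k) (h : IsSquare (C n)) : IsSquare n := by
  by_cases hn : n = 0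
  · subst hn; exact ⟨0, by simp⟩
  obtain ⟨z, hz⟩ := h
  have hz0 : z ≠ 0 := by
    rintro rfl
    rw [mul_zero] at hz
    exact hn (C_eq_zero.1 hz)
  have hd : z.natDegree = 0 := by
    have := congrArg natDegree hz
    rw [natDegree_C, natDegree_mul hz0 hz0] at this
    omega
  obtain ⟨c, hc⟩ := natDegree_eq_zero.1 hd
  refine ⟨c, ?_⟩
  rw [← hc, ← C_mul] at hz
  exact C_injective hz

/-- no full line of squares -/
theorem coset5 (LP : LemmaP (ZMod p)) (hp : 5 ≤ p) (f w : (ZMod p)[X]) (hw : w ≠ 0)
    (h : ∀ t : ZMod p, IsSquare (f + t • w)) : False := by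
  have h3 := three_ne hp
  have h3' : (3 : (ZMod p)[X]) ≠ 0 := by
    have e : (3 : (ZMod p)[X]) = C (3 : ZMod p) := rfl
    rw [e]; exact C_ne_zero.2 h3
  refine descent (p := p) (by omega) (κ := Fin 1) Set.univ (Set.mem_univ _) (fun i => Set.mem_univ _)
    (fun d => d 0 ≠ 0) ?_ ?_ ?_ ?_ _ f (fun _ => w) rfl hw (by
      intro c _
      simpa using h (c 0))
  · intro γ d hγ hgd hd
    apply hgd
    simp [hd]
  · intro h hgd hd
    apply hgd
    simp [hd, hpf.out.ne_zero]
  · intro f d hd hsq
    have hsq' : ∀ t : ZMod p, IsSquare (f + t • d 0) := by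
      intro t
      simpa using hsq (fun _ => t) (Set.mem_univ _)
    have key : ∀ t : ZMod p, f + t • d 0 ≠ 0 → f * derivative (d 0) = d 0 * derivative f := by
      intro t ht
      have hP := LP (f + t • d 0) (d 0) (d 0) (by
        intro a b _ _
        have := hsq' (t + a + b)
        convert this using 1
        rw [smul_eq_C_mul, smul_eq_C_mul]
        simp only [C_add, map_intCast]
        ring)
      have e : PP (f + t • d 0) (d 0) (d 0) (derivative (f + t • d 0)) (derivative (d 0)) (derivative (d 0))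
          = 3 * (f + t • d 0) * (f * derivative (d 0) - d 0 * derivative f) ^ 4 := by
        unfold PP
        rw [smul_eq_C_mul]
        simp only [derivative_add, derivative_mul, derivative_C]
        ring
      rw [e] at hP
      rcases mul_eq_zero.1 hP with h1 | h1
      · exfalso
        rcases mul_eq_zero.1 h1 with h1 | h1
        · exact h3' h1
        · exact ht h1
      · exact sub_eq_zero.1 (pow_eq_zero_iff (by norm_num) |>.1 h1)
    have hmain : f * derivative (d 0) = d 0 * derivative f := by
      by_cases hf : f = 0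
      · apply key 1
        rw [hf]; simpa using hd
      · apply key 0
        simpa using hf
    refine ⟨?_, ?_⟩
    · intro i
      rw [Subsingleton.elim i 0]; exact hmain
    · intro i j
      rw [Subsingleton.elim i j]
  · intro f d hd hsq hf0 hd0
    obtain ⟨a, ha⟩ := natDegree_eq_zero.1 hf0
    obtain ⟨b, hb⟩ := natDegree_eq_zero.1 (hd0 0)
    have hb0 : b ≠ 0 := by
      rintro rfl
      apply hd; rw [← hb, C_0]
    obtain ⟨n, hn⟩ := FiniteField.exists_nonsquare (F := ZMod p) (by
      rw [ZMod.ringChar_zmod_n]; omega)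
    apply hn
    apply isSquare_of_C
    have := hsq (fun _ => (n - a) / b) (Set.mem_univ _)
    convert this using 1
    rw [← ha]
    rw [Fin.sum_univ_one, ← hb, smul_eq_C_mul, ← C_mul, ← C_add]
    congr 1
    field_simp
    ring

end Pool.Helper329.SQ
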